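import Pool.Agent.V5helper26.BP.Union

/-!
# Blocks of digits in the multiples of irrational numbers by primes

Let `x` be a real irrational number, algebraic or not, and `k`, `r`, `B` natural numbers. For all the
primes `p ≤ N` with at most `N ^ (1 - c')` exceptions, in every base `2 ≤ b ≤ B` all `r`-tuples of
blocks of `k` digits occur at infinitely many places `n` in the numbers `p x, p² x, …, p^r x`
simultaneously (the `j`-th block at the place `n` of `p^j x`). Here `c' > 0` is explicit in `k` and `B`
and does not depend on `x`, so the blocks of all lengths `k` with `B ^ (k r) ≤ (log N) ^ (1 - ε)` are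
covered as well. The same holds for the numbers `y_j + h_j(p) x` with real `y_j` and integral
polynomials `h_j` without a nontrivial constant integral combination, and for real polynomials
`P_1, …, P_r` as soon as the leading coefficients of their nontrivial integral combinations are
integral multiples of `x`; the lower coefficients are arbitrary real numbers.

Proof. There are arbitrarily large places `s` such that no multiple `q b^s x` with `0 < q ≤ Q` is
nearer to an integer than `1 / ((b + 1) Q)`, because a chain of good approximations of all the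
`b^s x`, `s ≥ S`, consists of the multiples by `b` of the same fraction. At such a place the
exponential sums over the primes with the frequency `b^s` save a power of `N` (Vinogradov's method for
real polynomial phases). So the windows of `J = c log N` blocks after the place `s` are distributed
nearly uniformly, and the windows which avoid a given `r`-tuple of blocks are a proportion of
`(1 - b ^ (-k r)) ^ J` of all windows.
-/

set_option autoImplicit false

namespace Pool.Agent.Results.MP_5b6025_nt.BlocksInPrimeMultiples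

open Finset Polynomial

/-- the digits in base `b` of the fractional part of `y_j` at the places `n + 1, …, n + k` are
`W_j(0), …, W_j(k - 1)`, for all `j` -/
def JointlyAt {r k : ℕ} (b : ℕ) (W : Fin r → Fin k → Fin b) (y : Fin r → ℝ) (n : ℕ) : Prop :=
  ∀ (j : Fin r) (l : Fin k), ⌊(b : ℝ) ^ (n + l + 1) * y j⌋ % (b : ℤ) = (W j l : ℕ)

/-- in every base `2 ≤ b ≤ B` every `r`-tuple of blocks of `k` digits occurs at infinitely many common
places in the numbers `y_1, …, y_r` -/
def AllBlocks {r : ℕ} (B k : ℕ) (y : Fin r → ℝ) : Prop :=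
  ∀ b : ℕ, 2 ≤ b → b ≤ B → ∀ W : Fin r → Fin k → Fin b, {n : ℕ | JointlyAt b W y n}.Infinite

/-- every linear combination of the real polynomials `P_1, …, P_r` with integers `g_j`, not all zero,
has a degree between `1` and `d` and a leading coefficient of the form `u x` with an integer `u ≠ 0`,
`|u| ≤ H (|g_1| + … + |g_r|)` -/
def LeadingMultiples (x H : ℝ) (d : ℕ) {r : ℕ} (P : Fin r → ℝ[X]) : Prop :=
  ∀ g : Fin r → ℤ, g ≠ 0 →
    1 ≤ (∑ j, C (g j : ℝ) * P j).natDegree ∧ (∑ j, C (g j : ℝ) * P j).natDegree ≤ d ∧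
    ∃ u : ℤ, u ≠ 0 ∧ |(u : ℝ)| ≤ H * ∑ j, |(g j : ℝ)| ∧
      (∑ j, C (g j : ℝ) * P j).leadingCoeff = u * x

/-- (1) For all `r` and `d` there are `c, C > 0` such that for all irrational `x`, all `H ≥ 1`, all
`r`-tuples of real polynomials with `LeadingMultiples x H d P`, all `B ≥ 2`, `k ≥ 1` and `N ≥ 1`
the following holds for all but at most `C H B ^ (k r + 2) N ^ (1 - c / (k B ^ (k r) log B))` of the
primes `p ≤ N`: in every base `2 ≤ b ≤ B` every `r`-tuple of blocks of `k` digits occurs at infinitely
many common places in the numbers `P_1(p), …, P_r(p)`.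
(2) Let `h_1, …, h_r` be integral polynomials such that no linear combination with integral
coefficients, not all zero, is constant. There are `c, C > 0` such that for all irrational `x`, all
real `y_1, …, y_r`, all `B ≥ 2`, `k ≥ 1` and `N ≥ 1` this holds for the numbers `y_j + h_j(p) x` for
all but at most `C B ^ (k r + 2) N ^ (1 - c / (k B ^ (k r) log B))` of the primes `p ≤ N`. -/
theorem result (r : ℕ) :
    (∀ d : ℕ, ∃ c C : ℝ, 0 < c ∧ 0 < C ∧ ∀ x : ℝ, Irrational x → ∀ H : ℝ, 1 ≤ H →
      ∀ P : Fin r → ℝ[X], LeadingMultiples x H d P → ∀ B k : ℕ, 2 ≤ B → 1 ≤ k → ∀ N : ℕ, 1 ≤ N →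
      (({p : ℕ | p.Prime ∧ p ≤ N ∧ ¬ AllBlocks B k (fun j => (P j).eval (p : ℝ))}.ncard : ℕ) : ℝ) ≤
        C * H * (B : ℝ) ^ (k * r + 2) *
          (N : ℝ) ^ (1 - c / (k * (B : ℝ) ^ (k * r) * Real.log B))) ∧
    (∀ h : Fin r → ℤ[X], (∀ g : Fin r → ℤ, g ≠ 0 → 1 ≤ (∑ j, C (g j) * h j).natDegree) →
      ∃ c C : ℝ, 0 < c ∧ 0 < C ∧ ∀ x : ℝ, Irrational x → ∀ y : Fin r → ℝ,
      ∀ B k : ℕ, 2 ≤ B → 1 ≤ k → ∀ N : ℕ, 1 ≤ N →
      (({p : ℕ | p.Prime ∧ p ≤ N ∧
        ¬ AllBlocks B k (fun j => y j + (((h j).eval (p : ℤ) : ℤ) : ℝ) * x)}.ncard : ℕ) : ℝ) ≤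
        C * (B : ℝ) ^ (k * r + 2) *
          (N : ℝ) ^ (1 - c / (k * (B : ℝ) ^ (k * r) * Real.log B))) := by
  classical
  have hiff : ∀ (B k : ℕ) (y : Fin r → ℝ), ¬ AllBlocks B k y ↔ ∃ b : ℕ, 2 ≤ b ∧ b ≤ B ∧
      ∃ W : Fin r → Fin k → Fin b,
        {n : ℕ | Pool.Agent.V5helper26.BP.JointlyAt b W y n}.Finite := by
    intro B k y
    unfold AllBlocks
    push Not
    refine exists_congr fun b => and_congr_right fun _ => and_congr_right fun _ =>
      exists_congr fun W => ?_
    rfl
  simp_rw [hiff]
  refine ⟨fun d => Pool.Agent.V5helper26.BP.all_blocks r d, fun h hind => ?_⟩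
  obtain ⟨c, C₁, hc, hC₁, hmain⟩ := Pool.Agent.V5helper26.BP.all_blocks r (∑ j, (h j).natDegree)
  set H : ℝ := ∑ j, ∑ i ∈ range ((∑ j, (h j).natDegree) + 1), (((h j).coeff i).natAbs : ℝ) with hH
  have hH0 : 0 ≤ H := sum_nonneg fun _ _ => sum_nonneg fun _ _ => Nat.cast_nonneg _
  refine ⟨c, C₁ * (H + 1), hc, by positivity, fun x hx y B k hB hk N hN => ?_⟩
  have h1 := hmain x hx (H + 1) (by linarith)
    (fun j => C (y j) + C x * (h j).map (Int.castRingHom ℝ))
    (Pool.Agent.V5helper26.BP.leads_int x hx h hind y) B k hB hk N hN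
  have heval : ∀ (p : ℕ) (j : Fin r), (C (y j) + C x * (h j).map (Int.castRingHom ℝ)).eval (p : ℝ) =
      y j + (((h j).eval (p : ℤ) : ℤ) : ℝ) * x := by
    intro p j
    rw [eval_add, eval_mul, eval_C, eval_C]
    have : ((h j).map (Int.castRingHom ℝ)).eval (p : ℝ) = (((h j).eval (p : ℤ) : ℤ) : ℝ) := by
      have h1 := Polynomial.eval_intCast_map (Int.castRingHom ℝ) (h j) (p : ℤ)
      rw [Int.cast_natCast] at h1
      rw [h1]; rfl
    rw [this]; ring
  simp_rw [heval] at h1
  exact h1

end Pool.Agent.Results.MP_5b6025_nt.BlocksInPrimeMultiples
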