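import Mathlib
import Pool.Agent.V5helper55.DM.Full

/-!
# The matrices of digits of algebraic numbers have full rank

Let `x_1, …, x_r` be real algebraic numbers such that `1, x_1, …, x_r` are linearly independent over
`ℚ` (for `r = 1`: one irrational algebraic number), and let `x_i = ∑ g_i(n) b^(-n)` be their usual
expansions in base `b` or any other expansions with integers of bounded size.  We show that all
matrices `(g_i(n + j))`, with rows `(i, n) ∈ I` and columns `j ∈ J`, where `I` and `J` are unions of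
boundedly many intervals far out, have full rank `min (|I|, |J|)` as soon as the numbers of rows and
of columns differ by at least `ε N`; and that the rows remain independent after changing the digits
at `E` places if there are `E + 1` times as many columns.

Proof.  A linear relation between the columns, together with its shifts, gives a relation with small
integer coefficients (Siegel's lemma); after division by a power of `X - b` its value at `b` is not
zero.  Cut into blocks this value, the rows which are missing and the changed digits give few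
coordinates which are divisible by large powers of `b`, and a small linear form with algebraic
coefficients; by the subspace theorem the form vanishes.  The other kind of rank follows by duality
from the same statement.
-/

set_option autoImplicit false

open Finset

namespace Pool.Agent.Results.MP_5b6025_nt.DigitMatricesFullRank

/-- `x = ∑_(n ≥ 0) g(n) b^(-n)` with integers `g(n)`, `|g(n)| ≤ B b` for `n ≥ 1` (for instance
`g(0) = ⌊x⌋` and the usual digits `g(1), g(2), …` of `x` in base `b`, with `B = 1`) -/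
def Expansion (B b : ℕ) (x : ℝ) (g : ℕ → ℤ) : Prop :=
  (∀ n, 1 ≤ n → |g n| ≤ (B * b : ℤ)) ∧ HasSum (fun n : ℕ => (g n : ℝ) / (b : ℝ) ^ n) x

/-- `J` is a union of at most `K` intervals `[u, v)` of integers -/
def Intervals (K : ℕ) (J : Finset ℕ) : Prop :=
  ∃ u v : Fin K → ℕ, ∀ n, n ∈ J ↔ ∃ c, u c ≤ n ∧ n < v c

/-- `I` is a union of at most `K` sets of the form `{i} × [u, v)` -/
def PairIntervals {r : ℕ} (K : ℕ) (I : Finset (Fin r × ℕ)) : Prop :=
  ∃ (i : Fin K → Fin r) (u v : Fin K → ℕ), ∀ h n, (h, n) ∈ I ↔ ∃ c, i c = h ∧ u c ≤ n ∧ n < v c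

/-- the matrix with the entries `g_i(n + j)`, rows `(i, n) ∈ I` and columns `j ∈ J` -/
def digitMatrix {r : ℕ} (g : Fin r → ℕ → ℤ) (I : Finset (Fin r × ℕ)) (J : Finset ℕ) :
    Matrix I J ℝ := fun q j => (g q.1.1 (q.1.2 + j.1) : ℝ)

/-- the hypothesis on linear independence, with integers -/
lemma lin_int {r : ℕ} (x : Fin r → ℝ)
    (hlin : LinearIndependent ℚ (Fin.cons 1 x : Fin (r + 1) → ℝ)) (c : Fin r → ℤ) (z : ℤ)
    (h : ∑ i, x i * (c i : ℝ) = z) : ∀ i, c i = 0 := by
  rw [Fintype.linearIndependent_iff] at hlin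
  have h1 := hlin (Fin.cons (-(z : ℚ)) fun i => (c i : ℚ)) (by
    rw [Fin.sum_univ_succ]
    simp only [Fin.cons_zero, Fin.cons_succ, Rat.smul_def]
    push_cast
    have h2 : ∑ i, (c i : ℝ) * x i = z := by
      rw [← h]
      exact sum_congr rfl fun i _ => mul_comm _ _
    rw [h2]
    ring)
  intro i
  have h2 := h1 i.succ
  rw [Fin.cons_succ] at h2
  exact_mod_cast h2

/-- normal form of a union of intervals -/
lemma norm_intervals {K : ℕ} {J : Finset ℕ} (hJ : Intervals K J) {N : ℕ} (hN : 1 ≤ N) {C : ℝ}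
    (hJC : ∀ j ∈ J, (j : ℝ) ≤ C * N) :
    ∃ u v : Fin K → ℕ, J = Pool.Agent.V5helper55.DM.ints u v ∧
      ∀ c, (v c : ℝ) ≤ (|C| + 1) * N := by
  obtain ⟨u, v, h⟩ := hJ
  have hNR : (1 : ℝ) ≤ N := by exact_mod_cast hN
  refine ⟨u, fun c => if u c < v c then v c else 0, ?_, ?_⟩
  · ext n
    rw [h, Pool.Agent.V5helper55.DM.mem_ints]
    constructor
    · rintro ⟨c, h1, h2⟩
      exact ⟨c, h1, by rw [if_pos (by omega)]; exact h2⟩
    · rintro ⟨c, h1, h2⟩
      split_ifs at h2 with h3
      · exact ⟨c, h1, h2⟩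
      · omega
  · intro c
    dsimp only
    split_ifs with h3
    · have h4 := hJC (v c - 1) ((h _).2 ⟨c, by omega, by omega⟩)
      rw [Nat.cast_sub (by omega)] at h4
      have h5 : C * N ≤ |C| * N := mul_le_mul_of_nonneg_right (le_abs_self C) (by linarith)
      push_cast at h4
      linarith
    · push_cast
      positivity

/-- normal form of a union of intervals of pairs -/
lemma norm_pairs {r K : ℕ} {I : Finset (Fin r × ℕ)} (hI : PairIntervals K I) {N : ℕ} (hN : 1 ≤ N)
    {C : ℝ} (hIC : ∀ q ∈ I, N < q.2 ∧ (q.2 : ℝ) ≤ C * N) :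
    ∃ (i : Fin K → Fin r) (u v : Fin K → ℕ), I = Pool.Agent.V5helper55.DM.cols i u v ∧
      ∀ c, N < u c ∧ (v c : ℝ) ≤ (|C| + 1) * N := by
  obtain ⟨i, u, v, h⟩ := hI
  have hNR : (1 : ℝ) ≤ N := by exact_mod_cast hN
  refine ⟨i, fun c => if u c < v c then u c else N + 1, fun c => if u c < v c then v c else 0,
    ?_, ?_⟩
  · ext ⟨g, n⟩
    rw [h, Pool.Agent.V5helper55.DM.mem_cols]
    constructor
    · rintro ⟨c, h0, h1, h2⟩
      refine ⟨c, h0, ?_, ?_⟩
      · rw [if_pos (by omega)]; exact h1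
      · rw [if_pos (by omega)]; exact h2
    · rintro ⟨c, h0, h1, h2⟩
      split_ifs at h1 h2 with h3
      · exact ⟨c, h0, h1, h2⟩
      · omega
  · intro c
    dsimp only
    split_ifs with h3
    · have h4 := hIC (i c, v c - 1) ((h _ _).2 ⟨c, rfl, by omega, by omega⟩)
      have h6 := hIC (i c, u c) ((h _ _).2 ⟨c, rfl, by omega, by omega⟩)
      refine ⟨h6.1, ?_⟩
      have h7 := h4.2
      dsimp only at h7
      rw [Nat.cast_sub (by omega)] at h7
      have h5 : C * N ≤ |C| * N := mul_le_mul_of_nonneg_right (le_abs_self C) (by linarith)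
      push_cast at h7
      linarith
    · refine ⟨by omega, ?_⟩
      push_cast
      positivity

/-- the rank of matrices with more columns than rows -/
lemma rows_rank {r : ℕ} (x : Fin r → ℝ) (hx : ∀ i, IsAlgebraic ℚ (x i))
    (hlin : LinearIndependent ℚ (Fin.cons 1 x : Fin (r + 1) → ℝ)) (S : Finset ℕ) (K E B : ℕ)
    (C ε : ℝ) (hε : 0 < ε) :
    ∃ N₀ : ℕ, ∀ N : ℕ, N₀ ≤ N → ∀ b : ℕ, 2 ≤ b → (∀ p : ℕ, p.Prime → p ∣ b → p ∈ S) →
    ∀ g : Fin r → ℕ → ℤ, (∀ i, Expansion B b (x i) (g i)) →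
    ∀ (I : Finset (Fin r × ℕ)) (J : Finset ℕ), PairIntervals K I → Intervals K J →
    (∀ q ∈ I, N < q.2 ∧ (q.2 : ℝ) ≤ C * N) → (∀ j ∈ J, (j : ℝ) ≤ C * N) →
      ∀ s : Fin r → ℕ → ℤ, (∀ i n, 1 ≤ n → |s i n| ≤ (B * b : ℤ)) →
        {n : ℕ | N < n ∧ (n : ℝ) ≤ 2 * C * N ∧ ∃ i, s i n ≠ g i n}.ncard ≤ E →
        ((E : ℝ) + 1) * #I + ε * N ≤ #J → (digitMatrix s I J).rank = #I := by
  classical
  have hS : ∀ p ∈ S.filter Nat.Prime, p.Prime := fun p hp => (mem_filter.1 hp).2
  obtain ⟨N₁, h₁⟩ := Pool.Agent.V5helper55.DM.rows_indep x hx (lin_int x hlin)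
    (S.filter Nat.Prime) hS K E (B + 1) (by omega) (|C| + 1) ε hε
  refine ⟨N₁ + 1, ?_⟩
  intro N hN b hb hbS g hg I J hI hJ hIC hJC s hs herr hcard
  have hNR : (1 : ℝ) ≤ N := by exact_mod_cast (by omega : 1 ≤ N)
  obtain ⟨ic, lo, hi, hIe, hlohi⟩ := norm_pairs hI (by omega) hIC
  obtain ⟨u, v, hJe, hv⟩ := norm_intervals hJ (by omega) hJC
  have hBb : (B * b : ℤ) ≤ (((B + 1) * b : ℕ) : ℤ) := by
    push_cast
    nlinarith
  have hg' : ∀ i n, |g i (n + 1)| ≤ (((B + 1) * b : ℕ) : ℤ) := fun i n =>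
    ((hg i).1 (n + 1) (by omega)).trans hBb
  let s' : Fin r → ℕ → ℤ := fun i n => if N < n ∧ (n : ℝ) ≤ 2 * C * N then s i n else g i n
  have key := h₁ N (by omega) b hb (fun p hp hpb => mem_filter.2 ⟨hbS p hp hpb, hp⟩) g hg'
    (fun i => (hg i).2) s'
    (by
      intro i n
      simp only [s']
      split_ifs
      · exact (hs i (n + 1) (by omega)).trans hBb
      · exact hg' i n)
    (by
      refine le_trans (Set.ncard_le_ncard ?_ ?_) herr
      · rintro n ⟨h1, h2, i, h3⟩
        simp only [s'] at h3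
        split_ifs at h3 with h4
        · exact ⟨h4.1, h4.2, i, h3⟩
        · exact absurd rfl h3
      · refine (Set.finite_Iic ⌊2 * C * (N : ℝ)⌋₊).subset ?_
        intro n hn
        exact Nat.le_floor hn.2.1)
    ic lo hi u v hlohi hv (by rw [← hIe, ← hJe]; exact hcard)
  have hrow : LinearIndependent ℝ (digitMatrix s I J).row := by
    rw [Fintype.linearIndependent_iff]
    intro w hw q
    have h3 := key (fun i n => if h : (i, n) ∈ I then w ⟨(i, n), h⟩ else 0)
      (by
        intro j hj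
        rw [← hJe] at hj
        have h1 := congrFun hw ⟨j, hj⟩
        simp only [Finset.sum_apply, Pi.smul_apply, smul_eq_mul, Pi.zero_apply] at h1
        refine Eq.trans ?_ h1
        rw [← hIe, ← Finset.sum_coe_sort I]
        refine sum_congr rfl fun q _ => ?_
        have hq : (q.1.1, q.1.2) ∈ I := q.2
        rw [dif_pos hq]
        have h4 : s' q.1.1 (q.1.2 + j) = s q.1.1 (q.1.2 + j) := by
          simp only [s']
          rw [if_pos]
          have h5 := hIC q.1 q.2
          have h6 := hJC j hj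
          refine ⟨by omega, ?_⟩
          push_cast
          linarith [h5.2]
        rw [h4]
        rfl)
      q.1 (by rw [← hIe]; exact q.2)
    have hq : (q.1.1, q.1.2) ∈ I := q.2
    rw [dif_pos hq] at h3
    exact h3
  rw [hrow.rank_matrix, Fintype.card_coe]

/-- Let `x_1, …, x_r` be real algebraic numbers such that `1, x_1, …, x_r` are linearly independent
over `ℚ`, let `S` be a finite set and `K`, `E`, `B`, `C` and `ε > 0` be given.  For all large `N`,
all bases `b ≥ 2` whose prime factors are in `S` and all expansions `x_i = ∑ g_i(n) b^(-n)` with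
integers `|g_i(n)| ≤ B b` for `n ≥ 1` the following holds for all sets `I` of pairs `(i, n)` with
`N < n ≤ C N` and all `J ⊆ [0, C N]` which are unions of at most `K` intervals.

(1) If `|I|` and `|J|` differ by at least `ε N`, then the matrix `(g_i(n + j))`, with rows
`(i, n) ∈ I` and columns `j ∈ J`, has rank `min (|I|, |J|)`.

(2) If `(E + 1) |I| + ε N ≤ |J|`, and if the integers `s_i(n)`, `|s_i(n)| ≤ B b`, are such that
among the places `n` with `N < n ≤ 2 C N` there are at most `E` with `s_i(n) ≠ g_i(n)` for some `i`,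
then the matrix `(s_i(n + j))` has rank `|I|`. -/
theorem result {r : ℕ} (x : Fin r → ℝ) (hx : ∀ i, IsAlgebraic ℚ (x i))
    (hlin : LinearIndependent ℚ (Fin.cons 1 x : Fin (r + 1) → ℝ)) (S : Finset ℕ) (K E B : ℕ)
    (C ε : ℝ) (hε : 0 < ε) :
    ∃ N₀ : ℕ, ∀ N : ℕ, N₀ ≤ N → ∀ b : ℕ, 2 ≤ b → (∀ p : ℕ, p.Prime → p ∣ b → p ∈ S) →
    ∀ g : Fin r → ℕ → ℤ, (∀ i, Expansion B b (x i) (g i)) →
    ∀ (I : Finset (Fin r × ℕ)) (J : Finset ℕ), PairIntervals K I → Intervals K J →
    (∀ q ∈ I, N < q.2 ∧ (q.2 : ℝ) ≤ C * N) → (∀ j ∈ J, (j : ℝ) ≤ C * N) →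
      (ε * N ≤ |(#I : ℝ) - #J| → (digitMatrix g I J).rank = min #I #J) ∧
      (∀ s : Fin r → ℕ → ℤ, (∀ i n, 1 ≤ n → |s i n| ≤ (B * b : ℤ)) →
        {n : ℕ | N < n ∧ (n : ℝ) ≤ 2 * C * N ∧ ∃ i, s i n ≠ g i n}.ncard ≤ E →
        ((E : ℝ) + 1) * #I + ε * N ≤ #J → (digitMatrix s I J).rank = #I) := by
  classical
  have hS : ∀ p ∈ S.filter Nat.Prime, p.Prime := fun p hp => (mem_filter.1 hp).2
  obtain ⟨N₁, h₁⟩ := rows_rank x hx hlin S K E B C ε hε
  obtain ⟨N₂, h₂⟩ := rows_rank x hx hlin S K 0 B C ε hε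
  obtain ⟨N₃, h₃⟩ := Pool.Agent.V5helper55.DM.cols_indep x hx (lin_int x hlin)
    (S.filter Nat.Prime) hS K (B + 1) (by omega) (|C| + 1) ε hε
  refine ⟨N₁ + N₂ + N₃ + 1, ?_⟩
  intro N hN b hb hbS g hg I J hI hJ hIC hJC
  refine ⟨?_, h₁ N (by omega) b hb hbS g hg I J hI hJ hIC hJC⟩
  intro hdiff
  rcases le_or_gt (#I : ℝ) #J with hle | hlt
  · rw [abs_of_nonpos (by linarith)] at hdiff
    have h3 := h₂ N (by omega) b hb hbS g hg I J hI hJ hIC hJC g (fun i => (hg i).1)
      (by
        have h1 : {n : ℕ | N < n ∧ (n : ℝ) ≤ 2 * C * N ∧ ∃ i, g i n ≠ g i n} = ∅ := by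
          ext n
          simp
        rw [h1, Set.ncard_empty])
      (by push_cast; linarith)
    have h4 : #I ≤ #J := by exact_mod_cast hle
    rw [h3, min_eq_left h4]
  · rw [abs_of_nonneg (by linarith)] at hdiff
    have h4 : #J ≤ #I := by exact_mod_cast hlt.le
    obtain ⟨ic, lo, hi, hIe, hlohi⟩ := norm_pairs hI (by omega) hIC
    obtain ⟨u, v, hJe, hv⟩ := norm_intervals hJ (by omega) hJC
    have hBb : (B * b : ℤ) ≤ (((B + 1) * b : ℕ) : ℤ) := by
      push_cast
      nlinarith
    have key := h₃ N (by omega) b hb (fun p hp hpb => mem_filter.2 ⟨hbS p hp hpb, hp⟩) g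
      (fun i n => ((hg i).1 (n + 1) (by omega)).trans hBb) (fun i => (hg i).2) ic lo hi u v
      hlohi hv (by rw [← hIe, ← hJe]; linarith)
    have hcol : LinearIndependent ℝ (digitMatrix g I J).transpose.row := by
      rw [Fintype.linearIndependent_iff]
      intro w hw j
      have h3 := key (fun n => if h : n ∈ J then w ⟨n, h⟩ else 0)
        (by
          intro q hq
          rw [← hIe] at hq
          have h1 := congrFun hw ⟨q, hq⟩
          simp only [Finset.sum_apply, Pi.smul_apply, smul_eq_mul, Pi.zero_apply] at h1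
          refine Eq.trans ?_ h1
          rw [← hJe, ← Finset.sum_coe_sort J]
          refine sum_congr rfl fun j _ => ?_
          rw [dif_pos j.2]
          rfl)
        j.1 (by rw [← hJe]; exact j.2)
      rw [dif_pos j.2] at h3
      exact h3
    rw [← Matrix.rank_transpose, hcol.rank_matrix, Fintype.card_coe, min_eq_right h4]

end Pool.Agent.Results.MP_5b6025_nt.DigitMatricesFullRank
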