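import Pool.Agent.V5helper26.PM.Fin

/-!
# Joint normality of the values of polynomials, in short intervals of integers

Let `x` be a real algebraic irrational number and `ε > 0` arbitrarily small. In every interval of at
least `exp(ε N)` integers (anywhere), for almost all the integers `m` in it, the numbers
`m x, m² x, …, m^k x` are jointly normal up to the `N`-th digit, with the discrepancy
`N ^ (-1/2 + δ)` of random numbers, simultaneously in all bases `b ≤ B`. The same holds for the
vectors `(P_1(m), …, P_k(m))` with real polynomials `P_j` as soon as the leading coefficients of the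
integral linear combinations of the `P_j` are rational multiples of `x` of small height; the lower
coefficients are arbitrary real numbers. The exceptional set serves for `N ^ A` such `k`-tuples at
once, for instance for all the numbers `h(m) x`, where `h` is a nonconstant integral polynomial of
degree at most `d` with coefficients at most `N ^ C` (`k = 1`).

Proof. For a fixed `s` the `2s`-th moment over `m` of the exponential sums over the digits is expanded.
The resulting sums are Weyl sums of real polynomials, whose leading coefficients are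
`(u / v) x ∑ ± b^(i_j)`. By the subspace theorem (and, for very long intervals, by Liouville's
theorem) these have no good rational approximations with small denominators, unless
`∑ ± b^(i_j) = 0`, which is rare; so the Weyl sums are small, by an inverse theorem for Weyl sums. The
frequencies of all integer vectors of size at most `N` are used in an inequality of
Erdős–Turán–Koksma type.
-/

set_option autoImplicit false

namespace Pool.Agent.Results.MP_5b6025_nt.PolynomialWindows

open Finset Polynomial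

/-- for every `n ≤ N` and every box `[α_1, β_1) × ⋯ × [α_k, β_k)` in the unit cube the number of `i` with
`1 ≤ i ≤ n` such that the vector of the fractional parts of `z_j b^i`, `j = 1, …, k`, lies in the box
differs from `n` times the volume of the box by at most `E` -/
def DiscrepancyUpTo (b N : ℕ) {k : ℕ} (E : ℝ) (z : Fin k → ℝ) : Prop :=
  ∀ n : ℕ, n ≤ N → ∀ α β : Fin k → ℝ, (∀ j, 0 ≤ α j ∧ α j ≤ β j ∧ β j ≤ 1) →
    |(({i : ℕ | 1 ≤ i ∧ i ≤ n ∧ ∀ j, α j ≤ Int.fract (z j * (b : ℝ) ^ i) ∧
      Int.fract (z j * (b : ℝ) ^ i) < β j}.ncard : ℕ) : ℝ) - n * ∏ j, (β j - α j)| ≤ E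

/-- every linear combination of the real polynomials `P_1, …, P_k` with integers of absolute value at
most `N`, not all zero, has a degree between `1` and `d` and a leading coefficient of the form
`(u / v) x` with integers `u ≠ 0`, `v ≥ 1` and `|u|, v ≤ exp(κ N)` -/
def Admissible (x κ : ℝ) (N d : ℕ) {k : ℕ} (P : Fin k → ℝ[X]) : Prop :=
  ∀ g : Fin k → ℤ, g ≠ 0 → (∀ j, |g j| ≤ N) →
    1 ≤ (∑ j, C (g j : ℝ) * P j).natDegree ∧ (∑ j, C (g j : ℝ) * P j).natDegree ≤ d ∧
    ∃ (u : ℤ) (v : ℕ), u ≠ 0 ∧ |(u : ℝ)| ≤ Real.exp (κ * N) ∧ 1 ≤ v ∧ (v : ℝ) ≤ Real.exp (κ * N) ∧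
      (∑ j, C (g j : ℝ) * P j).leadingCoeff = u / v * x

/-- Let `x` be a real algebraic irrational number, `B`, `d`, `k`, `A` natural numbers and `ε, δ > 0`.
There are `κ > 0` and `N₀` such that for all `N ≥ N₀`, all sets `𝓕` of at most `N ^ A` `k`-tuples of
real polynomials with `Admissible x κ N d P` for all `P ∈ 𝓕`, all integers `J` and all
`M ≥ exp(ε N)` the following holds for all but at most `M / N ^ A` of the integers `J ≤ m < J + M`:
for all `P ∈ 𝓕`, in every base `2 ≤ b ≤ B` the first `N` terms of the sequence of vectors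
`(P_1(m) b^i, …, P_k(m) b^i)_{i ≥ 1}` have discrepancy at most `N ^ (1/2 + δ)` modulo one (not
normalized), and so have its first `n` terms, for all `n ≤ N`. -/
theorem result (x : ℝ) (halg : IsAlgebraic ℚ x) (hirr : Irrational x) (B d k A : ℕ) (ε δ : ℝ)
    (hε : 0 < ε) (hδ : 0 < δ) :
    ∃ κ : ℝ, 0 < κ ∧ ∃ N₀ : ℕ, ∀ N : ℕ, N₀ ≤ N → ∀ 𝓕 : Finset (Fin k → ℝ[X]),
      (𝓕.card : ℝ) ≤ (N : ℝ) ^ A → (∀ P ∈ 𝓕, Admissible x κ N d P) →
      ∀ (J : ℤ) (M : ℕ), Real.exp (ε * N) ≤ M →
        (({m : ℤ | J ≤ m ∧ m < J + M ∧ ¬ ∀ P ∈ 𝓕, ∀ b : ℕ, 2 ≤ b → b ≤ B →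
          DiscrepancyUpTo b N ((N : ℝ) ^ (1 / 2 + δ)) (fun j => (P j).eval (m : ℝ))}.ncard : ℕ) : ℝ) ≤
            M / (N : ℝ) ^ A := by
  classical
  have hdef : ∀ (b N : ℕ) (E : ℝ) (z : Fin k → ℝ), DiscrepancyUpTo b N E z ↔
      Pool.Agent.V5helper26.PM.JDisc b N E z := by
    intro b N E z
    unfold DiscrepancyUpTo Pool.Agent.V5helper26.PM.JDisc
    refine forall_congr' fun n => imp_congr_right fun _ => forall_congr' fun α =>
      forall_congr' fun β => ?_
    have e1 : {i : ℕ | 1 ≤ i ∧ i ≤ n ∧ ∀ j, α j ≤ Int.fract (z j * (b : ℝ) ^ i) ∧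
        Int.fract (z j * (b : ℝ) ^ i) < β j} = (((Icc 1 n).filter (fun i : ℕ =>
        ∀ j, α j ≤ Int.fract (z j * (b : ℝ) ^ i) ∧ Int.fract (z j * (b : ℝ) ^ i) < β j) : Finset ℕ) :
          Set ℕ) := by
      ext i
      simp [and_assoc]
    rw [e1, Set.ncard_coe_finset]
    constructor
    · intro h1 h2 h3 h4
      exact h1 fun j => ⟨h2 j, h3 j, h4 j⟩
    · intro h1 h2
      exact h1 (fun j => (h2 j).1) (fun j => (h2 j).2.1) (fun j => (h2 j).2.2)
  simp_rw [hdef]
  obtain ⟨κ, hκ, N₀, hmain⟩ := Pool.Agent.V5helper26.PM.family x halg hirr B d k A ε δ hε hδ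
  exact ⟨κ, hκ, N₀, fun N hN 𝓕 hcard h𝓕 => (hmain N hN 𝓕 hcard fun P hP => h𝓕 P hP).2⟩

end Pool.Agent.Results.MP_5b6025_nt.PolynomialWindows
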