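import Pool.Agent.V5helper15.MB.Norm2

/-!
# The digits of random multiples of algebraic numbers in several bases are independent

Let `x_1, …, x_s` be real algebraic numbers which are linearly independent over the rational numbers
together with `1`, let `b_1, …, b_r` be pairwise multiplicatively independent bases, and let `m` be a
random element of an interval of at least `exp(ε N)` integers, where `ε > 0` is arbitrarily small, or
a random prime `m ≤ M`, where `exp(ε N) ≤ M ≤ exp(N ^ B)`. Then the digits in all the bases `b_i` of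
all the numbers `m^j x_l` (or, more generally, `y_l + ∑_j h_{l,j}(m) x_j`) at the places in `[ε N, N)`
are independent and uniformly distributed, up to the relative error `exp(-c N)`, in the following
sense: any digits may be prescribed at `c N` places in each of the expansions, as long as the places
form a bounded number of intervals.

Proof. By the subspace theorem the integral combinations `Λ = ∑ h_t b_{i(t)}^{u_t}` of boundedly many
powers of the bases with small coefficients have the following properties: if `Λ = 0` and all the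
exponents are at least `ε N` then the parts of the sum for the different bases vanish (a unit equation
with small coefficients); if the `Λ_l` are not all zero then `∑ Λ_l x_l` is not near to a rational
number with a small denominator. So the exponential sums which arise from a comparison of the windows
of digits with independent random strings are small, by an inverse theorem for Weyl sums, and by
Vinogradov's method for the primes.

Consequently all events which depend on windows of `c N` digits have the right probability, up to the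
factor `1 ± exp(-c N)`, including the exponentially rare ones. For instance, for all `m` outside a set
of density `exp(-c N)` the numbers are jointly normal, up to `δ`, in all the bases and up to the
place `N`.
-/

set_option autoImplicit false

namespace Pool.Agent.Results.MP_5b6025_nt.WindowsOfRandomMultiples

open Finset Polynomial

/-- the digit number `n + 1` after the point of the number `z` in base `b` -/
noncomputable def digit (b : ℕ) (z : ℝ) (n : ℕ) : ℤ := ⌊(b : ℝ) ^ (n + 1) * z⌋ % (b : ℤ)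

/-- `A` is an interval of at least `exp(ε N)` integers, or the set of the primes up to `M`, where
`exp(ε N) ≤ M ≤ exp(N ^ B)` -/
def Source (ε : ℝ) (B N : ℕ) (A : Finset ℤ) : Prop :=
  (∃ (J : ℤ) (M : ℕ), Real.exp (ε * N) ≤ M ∧ A = Ico J (J + M)) ∨
    ∃ M : ℕ, Real.exp (ε * N) ≤ M ∧ (M : ℝ) ≤ Real.exp ((N : ℝ) ^ B) ∧
      A = (Icc (1 : ℤ) M).filter (fun n : ℤ => Prime n)

/-- `T` is a union of at most `k` intervals `[u, v)` with `v ≤ N` -/
def Windows (k N : ℕ) (T : Finset ℕ) : Prop :=
  ∃ u v : Fin k → ℕ, (∀ j, v j ≤ N) ∧ T = univ.biUnion fun j => Ico (u j) (v j)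

/-- every integral linear combination of the rows of the matrix `h` of integral polynomials, except
for the trivial one, has an entry which is not constant -/
def FreeRows {t s : ℕ} (h : Fin t → Fin s → ℤ[X]) : Prop :=
  ∀ n : Fin t → ℤ, n ≠ 0 → ∃ j, 1 ≤ (∑ l, C (n l) * h l j).natDegree

/-- the number `y_l + ∑_j h_{l,j}(m) x_j` -/
noncomputable def value {t s : ℕ} (y : Fin t → ℝ) (h : Fin t → Fin s → ℤ[X]) (x : Fin s → ℝ) (m : ℤ)
    (l : Fin t) : ℝ :=
  y l + ∑ j, (((h l j).eval m : ℤ) : ℝ) * x j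

/-- For all `n ≤ N` and all blocks `W_{l,i}` of `K` digits in base `b_i` the number of the `p < n` such
that for all `l` and `i` the block `W_{l,i}` stands in the expansion of `z_l` in base `b_i` right after
the first `p` digits differs from `n ∏_{l,i} b_i^(-K)` by at most `δ N`. -/
def JointlyNormal {t r : ℕ} (b : Fin r → ℕ) (K N : ℕ) (δ : ℝ) (z : Fin t → ℝ) : Prop :=
  ∀ W : Fin t → Fin r → Fin K → ℕ, (∀ l i q, W l i q < b i) → ∀ n : ℕ, n ≤ N →
    |(({p : ℕ | p < n ∧ ∀ l i (q : Fin K), digit (b i) (z l) (p + q) = W l i q}.ncard : ℕ) : ℝ) -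
      n * ∏ _l : Fin t, ∏ i, ((b i : ℝ) ^ K)⁻¹| ≤ δ * N

/-- Let `x_1, …, x_s` be real algebraic numbers, linearly independent over `ℚ` together with `1`, let
`b_1, …, b_r ≥ 2` be pairwise multiplicatively independent, `h` a matrix of integral polynomials with
`FreeRows h`, `ε > 0` and `B` a natural number; let `z_l(m) = y_l + ∑_j h_{l,j}(m) x_j`.

(1) For every `k` there are `c > 0` and `N₀` such that for all `N ≥ N₀`, all `A` with `Source ε B N A`,
all real `y_l`, all sets `T_{l,i}` of at most `c N` places in `[0, N)` which are unions of at most `k`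
intervals, and which are contained in `[ε N, N)`, except possibly for one base `i = i₀(l)` for each
`l`, and all digits `d_{l,i,n} < b_i`: the number of `m ∈ A` such that for all `l`, `i` and
`n ∈ T_{l,i}` the digit number `n + 1` of `z_l(m)` in base `b_i` is `d_{l,i,n}`, is
`|A| ∏_{l,i} b_i^(-|T_{l,i}|)` up to a factor `1 ± exp(-c N)`.

(2) For every `K ≥ 1` and `δ > 0` there are `c > 0` and `N₀` such that for all `N ≥ N₀`, all `A` with
`Source ε B N A` and all real `y_l`: for all but at most `exp(-c N) |A|` of the `m ∈ A` the numbers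
`z_1(m), …, z_t(m)` are jointly normal in the bases `b_1, …, b_r`, for blocks of `K` digits, up to the
place `N` and up to `δ N`. -/
theorem result {s t r : ℕ} (x : Fin s → ℝ) (halg : ∀ j, IsAlgebraic ℚ (x j))
    (hlin : ∀ (n : Fin s → ℤ) (m : ℤ), ∑ j, (n j : ℝ) * x j = m → n = 0)
    (b : Fin r → ℕ) (hb : ∀ i, 2 ≤ b i)
    (hind : ∀ i i', i ≠ i' → ∀ p q : ℕ, b i ^ p = b i' ^ q → p = 0)
    (h : Fin t → Fin s → ℤ[X]) (hfree : FreeRows h) (ε : ℝ) (hε : 0 < ε) (B : ℕ) :
    (∀ k : ℕ, ∃ c : ℝ, 0 < c ∧ ∃ N₀ : ℕ, ∀ N : ℕ, N₀ ≤ N → ∀ A : Finset ℤ, Source ε B N A →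
      ∀ (y : Fin t → ℝ) (i₀ : Fin t → Fin r) (T : Fin t → Fin r → Finset ℕ),
      (∀ l i, Windows k N (T l i) ∧ ((T l i).card : ℝ) ≤ c * N) →
      (∀ l i, i ≠ i₀ l → ∀ n ∈ T l i, ε * N ≤ n) →
      ∀ d : Fin t → Fin r → ℕ → ℕ, (∀ l i n, d l i n < b i) →
        |(({m : ℤ | m ∈ A ∧ ∀ l i, ∀ n ∈ T l i, digit (b i) (value y h x m l) n = d l i n}.ncard : ℕ) : ℝ) -
          A.card * ∏ l, ∏ i, ((b i : ℝ) ^ (T l i).card)⁻¹| ≤
            Real.exp (-(c * N)) * (A.card * ∏ l, ∏ i, ((b i : ℝ) ^ (T l i).card)⁻¹)) ∧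
    (∀ (K : ℕ) (δ : ℝ), 1 ≤ K → 0 < δ → ∃ c : ℝ, 0 < c ∧ ∃ N₀ : ℕ, ∀ N : ℕ, N₀ ≤ N → ∀ A : Finset ℤ,
      Source ε B N A → ∀ y : Fin t → ℝ,
        (({m : ℤ | m ∈ A ∧ ¬ JointlyNormal b K N δ (value y h x m)}.ncard : ℕ) : ℝ) ≤
          Real.exp (-(c * N)) * A.card) := by
  classical
  have hSrc : ∀ (N : ℕ) (A : Finset ℤ), Source ε B N A → Pool.Agent.V5helper15.MB.Src ε B N A := by
    intro N A hA
    rcases hA with ⟨J, M, hM, rfl⟩ | ⟨M, hM, hM', rfl⟩
    · exact Or.inl ⟨J, M, hM, rfl⟩
    · exact Or.inr ⟨M, hM, hM', Pool.Agent.V5helper15.MB.primesZ_eq M⟩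
  constructor
  · intro k
    obtain ⟨c, hc, N₀, hmain⟩ := Pool.Agent.V5helper15.MB.windows_fin b hb hind x halg hlin h hfree ε hε B k
    refine ⟨c, hc, N₀, fun N hN A hA y i₀ T hT hTε d hd => ?_⟩
    obtain ⟨hne, h1⟩ := hmain N hN A (hSrc N A hA)
    have h2 := h1 y i₀ T (fun l i => (hT l i).1) (fun l i => (hT l i).2) hTε d hd
    have hA0 : (0 : ℝ) < A.card := by exact_mod_cast hne.card_pos
    have e1 : Pool.Agent.V5helper15.RM.E (Pool.Agent.V5helper15.MB.uz A)
        (fun m => if ∀ l i, ∀ n ∈ T l i, Pool.Agent.V5helper15.RM.dg (b i) (Pool.Agent.V5helper15.MB.zz y h x m l) n = d l i n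
          then (1 : ℝ) else 0) =
        (({m : ℤ | m ∈ A ∧ ∀ l i, ∀ n ∈ T l i, digit (b i) (value y h x m l) n = d l i n}.ncard : ℕ) : ℝ) / A.card := by
      rw [Pool.Agent.V5helper15.MB.E_uz A (fun m : ℤ => if ∀ l i, ∀ n ∈ T l i,
        Pool.Agent.V5helper15.RM.dg (b i) (Pool.Agent.V5helper15.MB.zz y h x m l) n = d l i n then (1 : ℝ) else 0)]
      congr 1
      have e2 : {m : ℤ | m ∈ A ∧ ∀ l i, ∀ n ∈ T l i, digit (b i) (value y h x m l) n = d l i n} =
          ((A.filter fun m => ∀ l i, ∀ n ∈ T l i, digit (b i) (value y h x m l) n = d l i n : Finset ℤ) : Set ℤ) := by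
        ext m
        simp
      rw [e2, Set.ncard_coe_finset, card_filter]
      push_cast
      rfl
    have e3 : ∏ l, ∏ i, 1 / (b i : ℝ) ^ (T l i).card = ∏ l, ∏ i, ((b i : ℝ) ^ (T l i).card)⁻¹ := by
      simp only [one_div]
    have h3 : |(({m : ℤ | m ∈ A ∧ ∀ l i, ∀ n ∈ T l i, digit (b i) (value y h x m l) n = d l i n}.ncard : ℕ) : ℝ) / A.card -
        ∏ l, ∏ i, ((b i : ℝ) ^ (T l i).card)⁻¹| ≤ Real.exp (-(c * N)) * ∏ l, ∏ i, ((b i : ℝ) ^ (T l i).card)⁻¹ := by
      rw [← e1, ← e3]
      convert h2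
    set X : ℝ := (({m : ℤ | m ∈ A ∧ ∀ l i, ∀ n ∈ T l i, digit (b i) (value y h x m l) n = d l i n}.ncard : ℕ) : ℝ) with hX
    set Q : ℝ := ∏ l, ∏ i, ((b i : ℝ) ^ (T l i).card)⁻¹ with hQ
    have e4 : X - A.card * Q = A.card * (X / A.card - Q) := by field_simp
    rw [e4, abs_mul, abs_of_pos hA0]
    calc (A.card : ℝ) * |X / A.card - Q| ≤ A.card * (Real.exp (-(c * N)) * Q) := mul_le_mul_of_nonneg_left h3 hA0.le
      _ = Real.exp (-(c * N)) * (A.card * Q) := by ring
  · intro K δ hK hδ
    obtain ⟨c, hc, N₀, hmain⟩ := Pool.Agent.V5helper15.MB.normal_fin b hb hind x halg hlin h hfree ε hε B K hK δ hδ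
    exact ⟨c, hc, N₀, fun N hN A hA y => hmain N hN A (hSrc N A hA) y⟩

end Pool.Agent.Results.MP_5b6025_nt.WindowsOfRandomMultiples
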